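import Mathlib

set_option autoImplicit false

/-! Counting the linear extensions of a poset covered by two chains by a row-by-row recursion. -/

namespace Pool.Agent.Lib_MP_33fb9b_co

variable {m n : ℕ}

/-- the underlying set of two chains of sizes `m` and `n` -/
abbrev C (m n : ℕ) : Type := Fin m ⊕ Fin n

/-- remaining elements when `i` elements of the first and `k` elements of the second chain have
been placed -/
def Rem (i k : ℕ) : C m n → Prop
  | Sum.inl a => i ≤ a.val
  | Sum.inr b => k ≤ b.val

/-- `l` lists all remaining elements, without repetition, and compatibly with `r` -/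
def Good (r : C m n → C m n → Prop) (i k : ℕ) (l : List (C m n)) : Prop :=
  l.Nodup ∧ (∀ x, x ∈ l ↔ Rem i k x) ∧ l.Pairwise (fun x y => ¬ r y x)

/-- compatibility of the relation with Boolean tables of allowed steps -/
structure Compat (r : C m n → C m n → Prop) (A B : ℕ → ℕ → Bool) : Prop where
  irr : ∀ x, ¬ r x x
  aa : ∀ a a' : Fin m, a < a' → r (Sum.inl a) (Sum.inl a')
  bb : ∀ b b' : Fin n, b < b' → r (Sum.inr b) (Sum.inr b')
  A_iff : ∀ (a : Fin m) (k : ℕ), k ≤ n →
    (A a.val k = true ↔ ∀ y, Rem a.val k y → ¬ r y (Sum.inl a))
  B_iff : ∀ (i : ℕ) (b : Fin n), i ≤ m →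
    (B i b.val = true ↔ ∀ y, Rem i b.val y → ¬ r y (Sum.inr b))

/-- all lists, built recursively -/
def exts (m n : ℕ) (A B : ℕ → ℕ → Bool) : ℕ → ℕ → ℕ → Finset (List (C m n))
  | 0, _, _ => {[]}
  | f + 1, i, k =>
    (if h : i < m ∧ A i k = true then
      (exts m n A B f (i + 1) k).image (fun l => Sum.inl ⟨i, h.1⟩ :: l) else ∅) ∪
    (if h : k < n ∧ B i k = true then
      (exts m n A B f i (k + 1)).image (fun l => Sum.inr ⟨k, h.1⟩ :: l) else ∅)

theorem good_cons_inl {r : C m n → C m n → Prop} {A B : ℕ → ℕ → Bool} (hc : Compat r A B)
    (i k : ℕ) (hk : k ≤ n) (a : Fin m) (l : List (C m n)) :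
    Good r i k (Sum.inl a :: l) ↔ a.val = i ∧ A i k = true ∧ Good r (i + 1) k l := by
  constructor
  · rintro ⟨h1, h2, h3⟩
    rw [List.nodup_cons] at h1
    rw [List.pairwise_cons] at h3
    have hai : a.val = i := by
      have h4 : i ≤ a.val := (h2 (Sum.inl a)).mp (List.mem_cons_self ..)
      by_contra hne
      have h5 : i < a.val := lt_of_le_of_ne h4 (Ne.symm hne)
      have h6 : (Sum.inl ⟨i, h5.trans a.isLt⟩ : C m n) ∈ (Sum.inl a :: l : List (C m n)) :=
        (h2 _).mpr (le_refl i)
      rw [List.mem_cons] at h6
      rcases h6 with h6 | h6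
      · have : (⟨i, h5.trans a.isLt⟩ : Fin m) = a := Sum.inl_injective h6
        rw [← this] at h5
        exact lt_irrefl _ h5
      · exact h3.1 _ h6 (hc.aa _ _ h5)
    subst hai
    refine ⟨rfl, ?_, h1.2, ?_, h3.2⟩
    · rw [hc.A_iff a k hk]
      intro y hy
      have h7 := (h2 y).mpr hy
      rw [List.mem_cons] at h7
      rcases h7 with h7 | h7
      · rw [h7]; exact hc.irr _
      · exact h3.1 y h7
    · intro x
      constructor
      · intro hx
        have h8 : Rem a.val k x := (h2 x).mp (List.mem_cons_of_mem _ hx)
        cases x with
        | inl a' =>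
          have h9 : a' ≠ a := fun h => h1.1 (h ▸ hx)
          have h10 : a.val ≤ a'.val := h8
          have h11 : a.val ≠ a'.val := fun h => h9 (Fin.ext h.symm)
          show a.val + 1 ≤ a'.val
          omega
        | inr b => exact h8
      · intro hx
        have h8 : Rem a.val k x := by
          cases x with
          | inl a' =>
            have h9 : a.val + 1 ≤ a'.val := hx
            show a.val ≤ a'.val
            omega
          | inr b => exact hx
        have h10 := (h2 x).mpr h8
        rw [List.mem_cons] at h10
        rcases h10 with h10 | h10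
        · exfalso
          rw [h10] at hx
          have h9 : a.val + 1 ≤ a.val := hx
          omega
        · exact h10
  · rintro ⟨hai, hA, h1, h2, h3⟩
    subst hai
    have hnot : (Sum.inl a : C m n) ∉ l := by
      intro h
      have h9 : a.val + 1 ≤ a.val := (h2 _).mp h
      omega
    refine ⟨List.nodup_cons.mpr ⟨hnot, h1⟩, ?_, List.pairwise_cons.mpr ⟨?_, h3⟩⟩
    · intro x
      rw [List.mem_cons, h2 x]
      cases x with
      | inl a' =>
        show (Sum.inl a' = Sum.inl a ∨ a.val + 1 ≤ a'.val) ↔ a.val ≤ a'.val
        rw [Sum.inl.injEq, Fin.ext_iff]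
        omega
      | inr b =>
        show (Sum.inr b = Sum.inl a ∨ k ≤ b.val) ↔ k ≤ b.val
        simp
    · intro y hy
      apply (hc.A_iff a k hk).mp hA
      have h8 := (h2 y).mp hy
      cases y with
      | inl a' =>
        have h9 : a.val + 1 ≤ a'.val := h8
        show a.val ≤ a'.val
        omega
      | inr b => exact h8

theorem good_cons_inr {r : C m n → C m n → Prop} {A B : ℕ → ℕ → Bool} (hc : Compat r A B)
    (i k : ℕ) (hi : i ≤ m) (b : Fin n) (l : List (C m n)) :
    Good r i k (Sum.inr b :: l) ↔ b.val = k ∧ B i k = true ∧ Good r i (k + 1) l := by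
  constructor
  · rintro ⟨h1, h2, h3⟩
    rw [List.nodup_cons] at h1
    rw [List.pairwise_cons] at h3
    have hai : b.val = k := by
      have h4 : k ≤ b.val := (h2 (Sum.inr b)).mp (List.mem_cons_self ..)
      by_contra hne
      have h5 : k < b.val := lt_of_le_of_ne h4 (Ne.symm hne)
      have h6 : (Sum.inr ⟨k, h5.trans b.isLt⟩ : C m n) ∈ (Sum.inr b :: l : List (C m n)) :=
        (h2 _).mpr (le_refl k)
      rw [List.mem_cons] at h6
      rcases h6 with h6 | h6
      · have : (⟨k, h5.trans b.isLt⟩ : Fin n) = b := Sum.inr_injective h6
        rw [← this] at h5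
        exact lt_irrefl _ h5
      · exact h3.1 _ h6 (hc.bb _ _ h5)
    subst hai
    refine ⟨rfl, ?_, h1.2, ?_, h3.2⟩
    · rw [hc.B_iff i b hi]
      intro y hy
      have h7 := (h2 y).mpr hy
      rw [List.mem_cons] at h7
      rcases h7 with h7 | h7
      · rw [h7]; exact hc.irr _
      · exact h3.1 y h7
    · intro x
      constructor
      · intro hx
        have h8 : Rem i b.val x := (h2 x).mp (List.mem_cons_of_mem _ hx)
        cases x with
        | inr a' =>
          have h9 : a' ≠ b := fun h => h1.1 (h ▸ hx)
          have h10 : b.val ≤ a'.val := h8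
          have h11 : b.val ≠ a'.val := fun h => h9 (Fin.ext h.symm)
          show b.val + 1 ≤ a'.val
          omega
        | inl a => exact h8
      · intro hx
        have h8 : Rem i b.val x := by
          cases x with
          | inr a' =>
            have h9 : b.val + 1 ≤ a'.val := hx
            show b.val ≤ a'.val
            omega
          | inl a => exact hx
        have h10 := (h2 x).mpr h8
        rw [List.mem_cons] at h10
        rcases h10 with h10 | h10
        · exfalso
          rw [h10] at hx
          have h9 : b.val + 1 ≤ b.val := hx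
          omega
        · exact h10
  · rintro ⟨hai, hA, h1, h2, h3⟩
    subst hai
    have hnot : (Sum.inr b : C m n) ∉ l := by
      intro h
      have h9 : b.val + 1 ≤ b.val := (h2 _).mp h
      omega
    refine ⟨List.nodup_cons.mpr ⟨hnot, h1⟩, ?_, List.pairwise_cons.mpr ⟨?_, h3⟩⟩
    · intro x
      rw [List.mem_cons, h2 x]
      cases x with
      | inr a' =>
        show (Sum.inr a' = Sum.inr b ∨ b.val + 1 ≤ a'.val) ↔ b.val ≤ a'.val
        rw [Sum.inr.injEq, Fin.ext_iff]
        omega
      | inl a =>
        show (Sum.inl a = Sum.inr b ∨ i ≤ a.val) ↔ i ≤ a.val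
        simp
    · intro y hy
      apply (hc.B_iff i b hi).mp hA
      have h8 := (h2 y).mp hy
      cases y with
      | inr a' =>
        have h9 : b.val + 1 ≤ a'.val := h8
        show b.val ≤ a'.val
        omega
      | inl a => exact h8

theorem mem_exts {r : C m n → C m n → Prop} {A B : ℕ → ℕ → Bool} (hc : Compat r A B) :
    ∀ (f i k : ℕ) (l : List (C m n)), i ≤ m → k ≤ n → f = (m - i) + (n - k) →
      (l ∈ exts m n A B f i k ↔ Good r i k l) := by
  intro f
  induction f with
  | zero =>
    intro i k l hi hk hf
    have h1 : i = m := by omega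
    have h2 : k = n := by omega
    subst h1 h2
    simp only [exts, Finset.mem_singleton]
    constructor
    · rintro rfl
      refine ⟨List.nodup_nil, ?_, List.Pairwise.nil⟩
      intro x
      cases x with
      | inl a =>
        have := a.isLt
        simp only [List.not_mem_nil, false_iff, Rem]
        omega
      | inr b =>
        have := b.isLt
        simp only [List.not_mem_nil, false_iff, Rem]
        omega
    · rintro ⟨_, h2, _⟩
      apply List.eq_nil_iff_forall_not_mem.mpr
      intro x hx
      have h3 := (h2 x).mp hx
      cases x with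
      | inl a =>
        have := a.isLt
        simp only [Rem] at h3
        omega
      | inr b =>
        have := b.isLt
        simp only [Rem] at h3
        omega
  | succ f ih =>
    intro i k l hi hk hf
    cases l with
    | nil =>
      constructor
      · intro h
        simp only [exts, Finset.mem_union] at h
        rcases h with h | h
        · split_ifs at h with h0
          · simp at h
          · simp at h
        · split_ifs at h with h0
          · simp at h
          · simp at h
      · rintro ⟨_, h2, _⟩
        exfalso
        by_cases him : i < m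
        · have := (h2 (Sum.inl ⟨i, him⟩)).mpr (le_refl i)
          simp at this
        · have hkn : k < n := by omega
          have := (h2 (Sum.inr ⟨k, hkn⟩)).mpr (le_refl k)
          simp at this
    | cons x l =>
      simp only [exts, Finset.mem_union]
      cases x with
      | inl a =>
        rw [good_cons_inl hc i k hk]
        constructor
        · rintro (h | h)
          · split_ifs at h with h0
            · obtain ⟨l', hl', he⟩ := Finset.mem_image.mp h
              rw [List.cons.injEq] at he
              obtain ⟨he1, rfl⟩ := he
              have he2 : (⟨i, h0.1⟩ : Fin m) = a := Sum.inl_injective he1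
              refine ⟨by rw [← he2], h0.2, ?_⟩
              exact (ih (i + 1) k l' (by omega) hk (by omega)).mp hl'
            · simp at h
          · split_ifs at h with h0
            · obtain ⟨l', hl', he⟩ := Finset.mem_image.mp h
              rw [List.cons.injEq] at he
              exact absurd he.1 (by simp)
            · simp at h
        · rintro ⟨hai, hA, hg⟩
          left
          have him : i < m := hai ▸ a.isLt
          rw [dif_pos ⟨him, hA⟩]
          refine Finset.mem_image.mpr ⟨l, (ih (i + 1) k l (by omega) hk (by omega)).mpr hg, ?_⟩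
          rw [List.cons.injEq]
          exact ⟨congrArg Sum.inl (Fin.ext hai.symm), rfl⟩
      | inr b =>
        rw [good_cons_inr hc i k hi]
        constructor
        · rintro (h | h)
          · split_ifs at h with h0
            · obtain ⟨l', hl', he⟩ := Finset.mem_image.mp h
              rw [List.cons.injEq] at he
              exact absurd he.1 (by simp)
            · simp at h
          · split_ifs at h with h0
            · obtain ⟨l', hl', he⟩ := Finset.mem_image.mp h
              rw [List.cons.injEq] at he
              obtain ⟨he1, rfl⟩ := he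
              have he2 : (⟨k, h0.1⟩ : Fin n) = b := Sum.inr_injective he1
              refine ⟨by rw [← he2], h0.2, ?_⟩
              exact (ih i (k + 1) l' hi (by omega) (by omega)).mp hl'
            · simp at h
        · rintro ⟨hai, hA, hg⟩
          right
          have hkn : k < n := hai ▸ b.isLt
          rw [dif_pos ⟨hkn, hA⟩]
          refine Finset.mem_image.mpr ⟨l, (ih i (k + 1) l hi (by omega) (by omega)).mpr hg, ?_⟩
          rw [List.cons.injEq]
          exact ⟨congrArg Sum.inr (Fin.ext hai.symm), rfl⟩

/-- number of lists from a state -/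
def g (m n : ℕ) (A B : ℕ → ℕ → Bool) (i k : ℕ) : ℕ := (exts m n A B ((m - i) + (n - k)) i k).card

theorem g_last (A B : ℕ → ℕ → Bool) : g m n A B m n = 1 := by
  unfold g
  rw [Nat.sub_self, Nat.sub_self]
  simp [exts]

theorem card_step (A B : ℕ → ℕ → Bool) (f i k : ℕ) :
    (exts m n A B (f + 1) i k).card =
      (if i < m ∧ A i k = true then (exts m n A B f (i + 1) k).card else 0) +
      (if k < n ∧ B i k = true then (exts m n A B f i (k + 1)).card else 0) := by
  rw [exts, Finset.card_union_of_disjoint]
  · congr 1
    · split_ifs with h
      · rw [Finset.card_image_of_injective]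
        intro l l' hl
        exact (List.cons.inj hl).2
      · simp
    · split_ifs with h
      · rw [Finset.card_image_of_injective]
        intro l l' hl
        exact (List.cons.inj hl).2
      · simp
  · rw [Finset.disjoint_left]
    intro l h1 h2
    split_ifs at h1 with h3
    · split_ifs at h2 with h4
      · obtain ⟨l1, _, e1⟩ := Finset.mem_image.mp h1
        obtain ⟨l2, _, e2⟩ := Finset.mem_image.mp h2
        rw [← e1, List.cons.injEq] at e2
        exact absurd e2.1 (by simp)
      · simp at h2
    · simp at h1

theorem g_step (A B : ℕ → ℕ → Bool) (i k : ℕ) (hi : i ≤ m) (hk : k ≤ n) (h : ¬ (i = m ∧ k = n)) :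
    g m n A B i k = (if i < m ∧ A i k = true then g m n A B (i + 1) k else 0) +
      (if k < n ∧ B i k = true then g m n A B i (k + 1) else 0) := by
  obtain ⟨f, hf⟩ : ∃ f, (m - i) + (n - k) = f + 1 := ⟨(m - i) + (n - k) - 1, by omega⟩
  unfold g
  rw [hf, card_step]
  congr 1
  · split_ifs with h1
    · have : (m - (i + 1)) + (n - k) = f := by omega
      rw [this]
    · rfl
  · split_ifs with h1
    · have : (m - i) + (n - (k + 1)) = f := by omega
      rw [this]
    · rfl

/-- one row of the table from the next one -/
def stepRow (A B : ℕ → Bool) : ℕ → List ℕ → List ℕ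
  | _, [] => []
  | k, x :: xs =>
    ((bif A k then x else 0) + (bif B k then (stepRow A B (k + 1) xs).headD 0 else 0)) ::
      stepRow A B (k + 1) xs

/-- the same with the recursive result shared -/
def stepRow' (A B : ℕ → Bool) (xs : List ℕ) : ℕ → List ℕ :=
  List.rec (fun _ => []) (fun x _ ih k =>
    (fun rest : List ℕ => ((bif A k then x else 0) + (bif B k then rest.headD 0 else 0)) :: rest)
      (ih (k + 1))) xs

theorem stepRow'_eq (A B : ℕ → Bool) (xs : List ℕ) (k : ℕ) :
    stepRow' A B xs k = stepRow A B k xs := by
  induction xs generalizing k with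
  | nil => rfl
  | cons x xs ih =>
    show (fun rest : List ℕ => ((bif A k then x else 0) +
      (bif B k then rest.headD 0 else 0)) :: rest) (stepRow' A B xs (k + 1)) = _
    rw [ih]
    rfl

/-- correctness of one row, top row excluded -/
theorem stepRow_spec (A B : ℕ → ℕ → Bool) (i : ℕ) (hi : i < m) :
    ∀ (d k : ℕ), k + d = n + 1 →
      stepRow (A i) (B i) k ((List.range' k d).map (g m n A B (i + 1))) =
        (List.range' k d).map (g m n A B i) := by
  intro d
  induction d with
  | zero => intro k _; rfl
  | succ d ih =>
    intro k hk
    rw [List.range'_succ, List.map_cons, List.map_cons, stepRow, ih (k + 1) (by omega)]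
    congr 1
    rw [g_step A B i k hi.le (by omega) (by omega)]
    congr 1
    · cases hA : A i k <;> simp [hi]
    · cases hB : B i k
      · simp
      · by_cases hkn : k < n
        · obtain ⟨d', rfl⟩ : ∃ d', d = d' + 1 := ⟨d - 1, by omega⟩
          rw [List.range'_succ]
          simp [hkn]
        · have : d = 0 := by omega
          subst this
          simp [hkn]

/-- correctness of the top row -/
theorem stepRow_top (A B : ℕ → ℕ → Bool) :
    ∀ (d k : ℕ), k + d = n →
      stepRow (fun _ => true) (B m) k (List.replicate d 0 ++ [1]) =
        (List.range' k (d + 1)).map (g m n A B m) := by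
  intro d
  induction d with
  | zero =>
    intro k hk
    have : k = n := by omega
    subst this
    rw [List.range'_succ, List.map_cons, g_last]
    simp only [List.replicate_zero, List.nil_append, stepRow, List.headD, cond_true]
    cases B m k <;> rfl
  | succ d ih =>
    intro k hk
    rw [List.replicate_succ, List.cons_append, stepRow, ih (k + 1) (by omega), List.range'_succ,
      List.range'_succ, List.map_cons]
    congr 1
    rw [g_step A B m k le_rfl (by omega) (by omega)]
    have hkn : k < n := by omega
    cases hB : B m k <;> simp [hkn]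

/-- the table, from the top row down -/
def rows (m n : ℕ) (A B : ℕ → ℕ → Bool) : ℕ → List ℕ
  | 0 => stepRow' (fun _ => true) (B m) (List.replicate n 0 ++ [1]) 0
  | d + 1 => stepRow' (A (m - (d + 1))) (B (m - (d + 1))) (rows m n A B d) 0

theorem rows_spec (A B : ℕ → ℕ → Bool) (d : ℕ) (hd : d ≤ m) :
    rows m n A B d = (List.range' 0 (n + 1)).map (g m n A B (m - d)) := by
  induction d with
  | zero =>
    rw [rows, stepRow'_eq, stepRow_top A B n 0 (Nat.zero_add n)]
    rfl
  | succ d ih =>
    rw [rows, stepRow'_eq, ih (by omega)]
    have h1 : m - d = m - (d + 1) + 1 := by omega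
    rw [h1, stepRow_spec A B (m - (d + 1)) (by omega) (n + 1) 0 (by omega)]

/-- the number of all lists is computed by the table -/
theorem g_eq_rows (A B : ℕ → ℕ → Bool) : g m n A B 0 0 = (rows m n A B m).headD 0 := by
  rw [rows_spec A B m le_rfl, Nat.sub_self, List.range'_succ]
  rfl

end Pool.Agent.Lib_MP_33fb9b_co
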