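import Mathlib
import Pool.Agent.Lib_MP_33fb9b_co.Paths

set_option autoImplicit false

/-! The concrete tables, and their kernel evaluation. -/

namespace Pool.Agent.Lib_MP_33fb9b_co

/-- lower boundary: when `i` elements of the first chain are placed, at least `Lw i` elements of the
second chain are placed -/
def Lw (i : ℕ) : ℕ :=
  [0,0,1,2,3,4,4,6,6,8,8,8,11,11,12,14,14,16,16,18,18].getD i 18

/-- upper boundary: when `i` elements of the first chain are placed, at most `Up i` elements of the
second chain are placed -/
def Up (i : ℕ) : ℕ :=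
  [3,3,5,5,7,7,9,10,10,13,13,13,15,15,17,17,18,19,20,21,21].getD i 21

/-- allowed steps in the first chain -/
def A0 (i k : ℕ) : Bool := Nat.ble (Lw (i + 1)) k

/-- allowed steps in the second chain -/
def B0 (i k : ℕ) : Bool := Nat.ble (k + 1) (Up i)

/-- the extra constraint: `b_q` before `a_p` -/
def A1 (p q i k : ℕ) : Bool := A0 i k && !(Nat.beq i p && Nat.ble k q)

/-- the extra constraint: `a_p` before `b_q` -/
def B1 (p q i k : ℕ) : Bool := B0 i k && !(Nat.ble i p && Nat.beq k q)

/-- total number -/
def total : ℕ := (rows 20 21 A0 B0 20).headD 0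
/-- number with `a_p` before `b_q` -/
def cAB (p q : ℕ) : ℕ := (rows 20 21 A0 (B1 p q) 20).headD 0
/-- number with `b_q` before `a_p` -/
def cBA (p q : ℕ) : ℕ := (rows 20 21 (A1 p q) B0 20).headD 0

theorem total_eq : total = 1583915616 := by decide +kernel
theorem cAB_00 : cAB 0 0 = 552536892 := by decide +kernel

/-- the check over all pairs -/
def chk : Bool := (List.range 20).all fun p => (List.range 21).all fun q =>
  (Nat.ble (cAB p q) 552536892 || Nat.ble (cBA p q) 552536892)

theorem chk_true : chk = true := by decide +kernel

end Pool.Agent.Lib_MP_33fb9b_co
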