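import Mathlib
import Pool.Agent.Lib_MP_33fb9b_co.Table

set_option autoImplicit false

/-! From linear extensions (as bijections) to lists. -/

namespace Pool.Agent.Lib_MP_33fb9b_co

section general

variable {P : Type} [Fintype P]

/-- order-respecting bijections correspond to order-respecting complete lists -/
theorem card_equiv_eq_card_list (r : P → P → Prop) (irr : ∀ x, ¬ r x x) :
    Nat.card {e : P ≃ Fin (Fintype.card P) // ∀ u v, r u v → e u < e v} =
      Nat.card {l : List P // l.Nodup ∧ (∀ x, x ∈ l) ∧ l.Pairwise (fun x y => ¬ r y x)} := by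
  classical
  let F : {e : P ≃ Fin (Fintype.card P) // ∀ u v, r u v → e u < e v} →
      {l : List P // l.Nodup ∧ (∀ x, x ∈ l) ∧ l.Pairwise (fun x y => ¬ r y x)} :=
    fun e => ⟨List.ofFn (fun i => e.1.symm i), by
      refine ⟨List.nodup_ofFn.mpr e.1.symm.injective, ?_, ?_⟩
      · intro x
        rw [List.mem_ofFn]
        exact ⟨e.1 x, by simp⟩
      · rw [List.pairwise_ofFn]
        intro i j hij hr
        have h1 := e.2 _ _ hr
        rw [Equiv.apply_symm_apply, Equiv.apply_symm_apply] at h1
        exact lt_asymm hij h1⟩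
  apply Nat.card_eq_of_bijective F
  constructor
  · intro e e' h
    have h1 : List.ofFn (fun i => e.1.symm i) = List.ofFn (fun i => e'.1.symm i) :=
      congrArg Subtype.val h
    have h2 := List.ofFn_injective h1
    apply Subtype.ext
    have h3 : e.1.symm = e'.1.symm := Equiv.ext (fun i => congrFun h2 i)
    have h4 := congrArg Equiv.symm h3
    simpa using h4
  · rintro ⟨l, hnd, hall, hp⟩
    have hlen : l.length = Fintype.card P := by
      rw [← List.toFinset_card_of_nodup hnd]
      have : l.toFinset = Finset.univ := by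
        ext x; simp [hall x]
      rw [this, Finset.card_univ]
    let e0 : Fin l.length ≃ P := List.Nodup.getEquivOfForallMemList l hnd hall
    let e : P ≃ Fin (Fintype.card P) := e0.symm.trans (finCongr hlen)
    have hofFn : List.ofFn (fun i => e.symm i) = l := by
      apply List.ext_getElem
      · simp [hlen]
      · intro i h1 h2
        simp [e, e0]
    refine ⟨⟨e, ?_⟩, Subtype.ext hofFn⟩
    intro u v huv
    by_contra hcon
    have h1 : e v ≤ e u := not_lt.mp hcon
    rcases h1.lt_or_eq with h1 | h1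
    · have h2 := hp
      rw [← hofFn, List.pairwise_ofFn] at h2
      have h3 := h2 h1
      rw [Equiv.symm_apply_apply, Equiv.symm_apply_apply] at h3
      exact h3 huv
    · have h2 : v = u := e.injective h1
      rw [h2] at huv
      exact irr _ huv

end general

/-- complete lists are counted by the table -/
theorem card_good_eq {m n : ℕ} (r : C m n → C m n → Prop) (A B : ℕ → ℕ → Bool)
    (hc : Compat r A B) :
    Nat.card {l : List (C m n) // l.Nodup ∧ (∀ x, x ∈ l) ∧ l.Pairwise (fun x y => ¬ r y x)} =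
      (rows m n A B m).headD 0 := by
  rw [← g_eq_rows]
  unfold g
  apply Nat.subtype_card
  intro l
  rw [mem_exts hc _ 0 0 l (Nat.zero_le _) (Nat.zero_le _) rfl]
  unfold Good
  have : ∀ x : C m n, Rem 0 0 x := by
    intro x
    cases x <;> exact Nat.zero_le _
  simp only [this, iff_true]

/-! ### The concrete relation -/

/-- the strict order of the counterexample -/
def r0 : C 20 21 → C 20 21 → Prop
  | Sum.inl a, Sum.inl a' => a < a'
  | Sum.inr b, Sum.inr b' => b < b'
  | Sum.inl a, Sum.inr b => Up a.val ≤ b.val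
  | Sum.inr b, Sum.inl a => b.val < Lw (a.val + 1)

theorem Up_mono : ∀ i j : ℕ, i ≤ j → Up i ≤ Up j := by
  have h : ∀ i < 22, ∀ j < 22, i ≤ j → Up i ≤ Up j := by decide
  have h2 : ∀ i, 21 ≤ i → Up i = 21 := by
    intro i hi
    unfold Up
    rw [List.getD_eq_default]
    simpa using hi
  have h3 : ∀ i < 22, Up i ≤ 21 := by decide
  intro i j hij
  by_cases hj : j < 22
  · exact h i (by omega) j hj hij
  · rw [h2 j (by omega)]
    by_cases hi : i < 22
    · exact h3 i hi
    · rw [h2 i (by omega)]

theorem Lw_mono : ∀ i j : ℕ, i ≤ j → Lw i ≤ Lw j := by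
  have h : ∀ i < 22, ∀ j < 22, i ≤ j → Lw i ≤ Lw j := by decide
  have h2 : ∀ i, 21 ≤ i → Lw i = 18 := by
    intro i hi
    unfold Lw
    rw [List.getD_eq_default]
    simpa using hi
  have h3 : ∀ i < 22, Lw i ≤ 18 := by decide
  intro i j hij
  by_cases hj : j < 22
  · exact h i (by omega) j hj hij
  · rw [h2 j (by omega)]
    by_cases hi : i < 22
    · exact h3 i hi
    · rw [h2 i (by omega)]

theorem Lw_le (i : ℕ) : Lw i ≤ 18 := by
  by_cases h : i < 22
  · have h3 : ∀ i < 22, Lw i ≤ 18 := by decide
    exact h3 i h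
  · unfold Lw
    rw [List.getD_eq_default]
    simp; omega

theorem Lw_succ_le_Up : ∀ i < 20, Lw (i + 1) ≤ Up i := by decide

theorem Up_20 : Up 20 = 21 := by decide

theorem r0_irr : ∀ x, ¬ r0 x x := by
  intro x
  cases x <;> exact lt_irrefl _

theorem r0_trans : ∀ x y z, r0 x y → r0 y z → r0 x z := by
  intro x y z hxy hyz
  rcases x with a | b <;> rcases y with a' | b' <;> rcases z with a'' | b'' <;>
    simp only [r0] at *
  · exact hxy.trans hyz
  · exact (Up_mono _ _ (le_of_lt hxy)).trans hyz
  · by_contra hcon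
    have h1 : a''.val ≤ a.val := not_lt.mp hcon
    have h2 := Lw_mono (a''.val + 1) (a.val + 1) (by omega)
    have h3 := Lw_succ_le_Up a.val a.isLt
    omega
  · have : b'.val < b''.val := hyz
    omega
  · have h1 : a'.val < a''.val := hyz
    have h2 := Lw_mono (a'.val + 1) (a''.val + 1) (by omega)
    omega
  · have h3 := Lw_succ_le_Up a'.val a'.isLt
    show b.val < b''.val
    omega
  · have : b.val < b'.val := hxy
    omega
  · exact hxy.trans hyz

/-- extra relation `a_p` before `b_q` -/
def r1 (p : Fin 20) (q : Fin 21) (x y : C 20 21) : Prop :=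
  r0 x y ∨ (x = Sum.inl p ∧ y = Sum.inr q)

/-- extra relation `b_q` before `a_p` -/
def r2 (p : Fin 20) (q : Fin 21) (x y : C 20 21) : Prop :=
  r0 x y ∨ (x = Sum.inr q ∧ y = Sum.inl p)

theorem A0_iff (a : Fin 20) (k : ℕ) (hk : k ≤ 21) :
    A0 a.val k = true ↔ ∀ y, Rem a.val k y → ¬ r0 y (Sum.inl a) := by
  unfold A0
  rw [Nat.ble_eq]
  constructor
  · intro h y hy
    rcases y with a' | b
    · have h1 : a.val ≤ a'.val := hy
      exact not_lt.mpr h1
    · have h1 : k ≤ b.val := hy
      show ¬ (b.val < Lw (a.val + 1))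
      omega
  · intro h
    by_cases hk' : k < 21
    · have h1 := h (Sum.inr ⟨k, hk'⟩) (le_refl k)
      exact not_lt.mp h1
    · have := Lw_le (a.val + 1)
      omega

theorem B0_iff (i : ℕ) (b : Fin 21) (hi : i ≤ 20) :
    B0 i b.val = true ↔ ∀ y, Rem i b.val y → ¬ r0 y (Sum.inr b) := by
  unfold B0
  rw [Nat.ble_eq]
  constructor
  · intro h y hy
    rcases y with a | b'
    · have h1 : i ≤ a.val := hy
      have h2 := Up_mono i a.val h1
      show ¬ (Up a.val ≤ b.val)
      omega
    · have h1 : b.val ≤ b'.val := hy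
      exact not_lt.mpr h1
  · intro h
    by_cases hi' : i < 20
    · have h1 := h (Sum.inl ⟨i, hi'⟩) (le_refl i)
      have h2 : ¬ (Up i ≤ b.val) := h1
      omega
    · have h3 : i = 20 := by omega
      have := b.isLt
      rw [h3, Up_20]
      omega

theorem compat0 : Compat r0 A0 B0 where
  irr := r0_irr
  aa := fun _ _ h => h
  bb := fun _ _ h => h
  A_iff := A0_iff
  B_iff := B0_iff

theorem compat1 (p : Fin 20) (q : Fin 21) : Compat (r1 p q) A0 (B1 p.val q.val) where
  irr := by
    rintro x (h | ⟨h1, h2⟩)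
    · exact r0_irr x h
    · rw [h1] at h2; simp at h2
  aa := fun _ _ h => Or.inl h
  bb := fun _ _ h => Or.inl h
  A_iff := by
    intro a k hk
    rw [A0_iff a k hk]
    apply forall_congr'
    intro y
    apply imp_congr_right
    intro _
    unfold r1
    simp
  B_iff := by
    intro i b hi
    unfold B1
    rw [Bool.and_eq_true, B0_iff i b hi]
    constructor
    · rintro ⟨h1, h2⟩ y hy (h3 | ⟨h3, h4⟩)
      · exact h1 y hy h3
      · rw [h3] at hy
        have h5 : i ≤ p.val := hy
        have h6 : b = q := Sum.inr_injective h4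
        rw [h6] at h2
        have h7 := Nat.ble_eq.mpr h5
        simp [h7] at h2
    · intro h
      refine ⟨fun y hy h3 => h y hy (Or.inl h3), ?_⟩
      rw [Bool.not_eq_true', Bool.and_eq_false_iff]
      by_contra hcon
      rw [not_or, Bool.not_eq_false, Bool.not_eq_false, Nat.ble_eq, Nat.beq_eq] at hcon
      have h6 : b = q := Fin.ext hcon.2
      exact h (Sum.inl p) hcon.1 (Or.inr ⟨rfl, by rw [h6]⟩)

theorem compat2 (p : Fin 20) (q : Fin 21) : Compat (r2 p q) (A1 p.val q.val) B0 where
  irr := by
    rintro x (h | ⟨h1, h2⟩)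
    · exact r0_irr x h
    · rw [h1] at h2; simp at h2
  aa := fun _ _ h => Or.inl h
  bb := fun _ _ h => Or.inl h
  B_iff := by
    intro i b hi
    rw [B0_iff i b hi]
    apply forall_congr'
    intro y
    apply imp_congr_right
    intro _
    unfold r2
    simp
  A_iff := by
    intro a k hk
    unfold A1
    rw [Bool.and_eq_true, A0_iff a k hk]
    constructor
    · rintro ⟨h1, h2⟩ y hy (h3 | ⟨h3, h4⟩)
      · exact h1 y hy h3
      · rw [h3] at hy
        have h5 : k ≤ q.val := hy
        have h6 : a = p := Sum.inl_injective h4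
        rw [h6] at h2
        have h7 := Nat.ble_eq.mpr h5
        simp [h7] at h2
    · intro h
      refine ⟨fun y hy h3 => h y hy (Or.inl h3), ?_⟩
      rw [Bool.not_eq_true', Bool.and_eq_false_iff]
      by_contra hcon
      rw [not_or, Bool.not_eq_false, Bool.not_eq_false, Nat.ble_eq, Nat.beq_eq] at hcon
      have h6 : a = p := Fin.ext hcon.1
      exact h (Sum.inr q) hcon.2 (Or.inr ⟨rfl, by rw [h6]⟩)

theorem total_count :
    Nat.card {l : List (C 20 21) // l.Nodup ∧ (∀ x, x ∈ l) ∧ l.Pairwise (fun x y => ¬ r0 y x)} =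
      1583915616 := by
  rw [card_good_eq r0 A0 B0 compat0]
  exact total_eq

theorem r1_count (p : Fin 20) (q : Fin 21) :
    Nat.card {l : List (C 20 21) // l.Nodup ∧ (∀ x, x ∈ l) ∧
      l.Pairwise (fun x y => ¬ r1 p q y x)} = cAB p.val q.val :=
  card_good_eq (r1 p q) A0 (B1 p.val q.val) (compat1 p q)

theorem r2_count (p : Fin 20) (q : Fin 21) :
    Nat.card {l : List (C 20 21) // l.Nodup ∧ (∀ x, x ∈ l) ∧
      l.Pairwise (fun x y => ¬ r2 p q y x)} = cBA p.val q.val :=
  card_good_eq (r2 p q) (A1 p.val q.val) B0 (compat2 p q)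

theorem small_side (p : Fin 20) (q : Fin 21) :
    cAB p.val q.val ≤ 552536892 ∨ cBA p.val q.val ≤ 552536892 := by
  have h := chk_true
  unfold chk at h
  rw [List.all_eq_true] at h
  have h1 := h p.val (List.mem_range.mpr p.isLt)
  rw [List.all_eq_true] at h1
  have h2 := h1 q.val (List.mem_range.mpr q.isLt)
  rw [Bool.or_eq_true, Nat.ble_eq, Nat.ble_eq] at h2
  exact h2

end Pool.Agent.Lib_MP_33fb9b_co
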